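import Pool.Agent.H68Z.Flag.Parts

/-!
For every `m ≥ 3` the join of two 12-vertex flag tori and `m - 3` octagons is a flag
`(2m-1)`-dimensional pseudomanifold on `8m` vertices with more facets than `J_m(8m)`.
-/

set_option autoImplicit false

namespace Pool.Agent.Results.MP_383f58_co.Counter

open Finset Pool.Agent.H68Z.Flag

/-- Sizes of the factors. -/
def sz (k : ℕ) : Fin 2 ⊕ Fin k → ℕ
  | .inl _ => 12
  | .inr _ => 8

/-- Dimensions of the factors. -/
def dm (k : ℕ) : Fin 2 ⊕ Fin k → ℕ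
  | .inl _ => 2
  | .inr _ => 1

/-- The factors. -/
def fac (k : ℕ) : ∀ j : Fin 2 ⊕ Fin k, AbstractSimplicialComplex (Fin (sz k j))
  | .inl _ => clq r12
  | .inr _ => cycle 8

theorem len (m : ℕ) (j : Fin m) : (8 * m + j.val) / m = 8 := by
  have hj := j.isLt
  rw [Nat.mul_comm, Nat.mul_add_div (by omega), Nat.div_eq_of_lt hj]

theorem Jm_fnum (m : ℕ) (hm : 3 ≤ m) : fnum (Jm m (8 * m)) (2 * m - 1) = 8 ^ m := by
  have : Nonempty (Fin m) := ⟨⟨0, by omega⟩⟩
  have key : ∀ k, k = 8 → IsPseudomanifold 1 (cycle k) ∧ fnum (cycle k) 1 = 8 := by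
    rintro k rfl
    exact ⟨cycle8_pseudo, cycle8_fnum⟩
  unfold Jm
  rw [join_fnum _ (fun _ => 1) (fun j => (key _ (len m j)).1) (2 * m - 1) (by simp; omega)]
  simp [fun j => (key _ (len m j)).2]

theorem result (m : ℕ) (hm : 3 ≤ m) :
    ∃ (V : Type) (_ : Fintype V) (_ : DecidableEq V) (K : AbstractSimplicialComplex V),
      Fintype.card V = 8 * m ∧ IsFlag K ∧ IsPseudomanifold (2 * m - 1) K ∧
      fnum (Jm m (8 * m)) (2 * m - 1) < fnum K (2 * m - 1) := by
  obtain ⟨k, rfl⟩ := Nat.exists_eq_add_of_le' hm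
  have hp : ∀ j, IsPseudomanifold (dm k j) (fac k j) := by
    rintro (j | j)
    · exact torus_pseudo
    · exact cycle8_pseudo
  have hD : 2 * (k + 3) - 1 + 1 = ∑ j, (dm k j + 1) := by
    simp [Fintype.sum_sum_type, dm]
    omega
  have : ∀ j, Nonempty (Fin (sz k j)) := by
    rintro (j | j)
    · exact ⟨(0 : Fin 12)⟩
    · exact ⟨(0 : Fin 8)⟩
  refine ⟨Σ j, Fin (sz k j), inferInstance, inferInstance, join (fac k), ?_, ?_, ?_, ?_⟩
  · rw [Fintype.card_sigma, Fintype.sum_sum_type]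
    simp only [Fintype.card_fin]
    simp [sz]
    omega
  · refine join_flag _ ?_
    rintro (j | j)
    · exact clq_flag r12
    · exact cycle8_flag
  · refine join_pseudo _ (dm k) ?_ hp _ hD
    rintro (j | j) <;> simp [dm]
  · rw [Jm_fnum _ hm, join_fnum _ (dm k) hp _ hD, Fintype.prod_sum_type]
    have e1 : ∀ j : Fin 2, fnum (fac k (.inl j)) (dm k (.inl j)) = fnum (clq r12) 2 :=
      fun _ => rfl
    have e2 : ∀ j : Fin k, fnum (fac k (.inr j)) (dm k (.inr j)) = 8 := fun _ => cycle8_fnum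
    simp only [e1, e2, prod_const, card_univ, Fintype.card_fin]
    have h0 : 0 < 8 ^ k := by positivity
    have h1 : 24 ^ 2 ≤ fnum (clq r12) 2 ^ 2 := Nat.pow_le_pow_left torus_fnum 2
    have h2 := Nat.mul_le_mul_right (8 ^ k) h1
    rw [pow_add]
    omega

end Pool.Agent.Results.MP_383f58_co.Counter
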